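import Pool.Agent.K3h27.OA.Data

set_option autoImplicit false
set_option maxRecDepth 1000000
set_option maxHeartbeats 40000000

namespace Pool.Agent.K3h27.OA

open Pool.Agent.K3h27.OP

theorem leaf2 : treeP ok leaf 0 1 0 0 = true := by decide +kernel

end Pool.Agent.K3h27.OA
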